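import Pool.Agent.EDG.Stmts

/-!
# EDG, row UNA (helper42)

A polynomial with more zeros than its degree in `X` modulo `2` has degree at least `g.natDegree` in `y`.
-/

set_option autoImplicit false

namespace Pool.Agent.EDG.H42

open Polynomial Finset

/-- evaluation at `X = a`, outer variable `= y`, of a polynomial modulo `2` -/
noncomputable def ek {k : Type} [Field k] [Algebra (ZMod 2) k] (a y : k) :
    (ZMod 2)[X][X] →+* k :=
  eval₂RingHom (eval₂RingHom (algebraMap (ZMod 2) k) a) y

theorem ek_red2 {k : Type} [Field k] [Algebra (ZMod 2) k] (a y : k) (ψ : ℤ[X][X]) :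
    ek a y (red2 ψ) = ev a y ψ := by
  have : (ek a y).comp red2 = ev a y := by
    apply Polynomial.ringHom_ext'
    · apply Polynomial.ringHom_ext'
      · exact RingHom.ext_int _ _
      · simp [ek, red2, ev]
    · simp [ek, red2, ev]
  exact congrArg (fun φ => φ ψ) this

theorem ek_frob {k : Type} [Field k] [Algebra (ZMod 2) k] [CharP k 2] (a y : k) (m : ℕ)
    (p : (ZMod 2)[X][X]) : (ek a y p) ^ 2 ^ m = ek (a ^ 2 ^ m) (y ^ 2 ^ m) p := by
  have : ExpChar k 2 := ExpChar.prime Nat.prime_two
  have : (iterateFrobenius k 2 m).comp (ek a y) = ek (a ^ 2 ^ m) (y ^ 2 ^ m) := by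
    apply Polynomial.ringHom_ext'
    · apply Polynomial.ringHom_ext'
      · exact Subsingleton.elim _ _
      · simp [ek, iterateFrobenius_def]
    · simp [ek, iterateFrobenius_def]
  exact congrArg (fun φ => φ p) this

theorem ek_swap {k : Type} [Field k] [Algebra (ZMod 2) k] (a y : k) (p : (ZMod 2)[X][X]) :
    ((Bivariate.swap p).map (eval₂RingHom (algebraMap (ZMod 2) k) y)).eval a = ek a y p := by
  rw [eval_map]
  have : (eval₂RingHom (eval₂RingHom (algebraMap (ZMod 2) k) y) a).comp
      (Bivariate.swap (R := ZMod 2)).toRingEquiv.toRingHom = ek a y := by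
    apply Polynomial.ringHom_ext'
    · apply Polynomial.ringHom_ext'
      · exact Subsingleton.elim _ _
      · simp [ek, Bivariate.swap_apply]
    · simp [ek, Bivariate.swap_apply]
  exact congrArg (fun φ => φ p) this

theorem coeff_swap (p : (ZMod 2)[X][X]) (m j : ℕ) :
    ((Bivariate.swap p).coeff m).coeff j = (p.coeff j).coeff m := by
  induction p using Polynomial.induction_on' with
  | add p q hp hq => rw [map_add, coeff_add, coeff_add, hp, hq, coeff_add, coeff_add]
  | monomial n a =>
    induction a using Polynomial.induction_on' with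
    | add p q hp hq =>
      rw [map_add, map_add, coeff_add, coeff_add, hp, hq, coeff_add, coeff_add]
    | monomial l r =>
      rw [Bivariate.swap_monomial_monomial, coeff_monomial, coeff_monomial]
      split_ifs with h1 h2 h2
      · rw [coeff_monomial, coeff_monomial, if_pos h2, if_pos h1]
      · rw [coeff_monomial, if_neg h2, coeff_zero]
      · rw [coeff_monomial, if_neg h1, coeff_zero]
      · rfl

theorem it_two {k : Type} [Field k] [CharP k 2] (θ : k) (i : ℕ) : it θ (-θ) i = θ ^ 2 ^ i := by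
  have h2 : (2 : k) = 0 := by exact_mod_cast CharP.cast_eq_zero k 2
  induction i with
  | zero => rw [it_zero, pow_zero, pow_one, CharTwo.neg_eq]
  | succ i ih => rw [it_succ, ih, h2, zero_mul, zero_mul, add_zero, ← pow_mul, ← pow_succ]

theorem key_una {k : Type} [Field k] [Algebra (ZMod 2) k] [CharP k 2] {n : ℕ} {g : ℤ[X]}
    {ψ : ℤ[X][X]} (hcard : dX (red2 ψ) < (Vn n g ψ).card) (θ : k) (hθ : aeval θ g = 0)
    (h1 : θ ^ (2 ^ n) = θ) (h2 : ∀ l, 0 < l → l < n → θ ^ (2 ^ l) ≠ θ) (m : ℕ) :
    aeval θ ((Bivariate.swap (red2 ψ)).coeff m) = 0 := by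
  have hinj : ∀ i ∈ Vn n g ψ, ∀ j ∈ Vn n g ψ, i < j → θ ^ 2 ^ (n - i) ≠ θ ^ 2 ^ (n - j) := by
    intro i _ j hj hij he
    have hjn := (mem_Vn.1 hj).1
    have h3 := congrArg (fun z => z ^ 2 ^ j) he
    simp only [← pow_mul, ← pow_add] at h3
    have e1 : n - i + j = n + (j - i) := by omega
    have e2 : n - j + j = n := by omega
    rw [e1, e2, h1, pow_add, pow_mul, h1] at h3
    exact h2 (j - i) (by omega) (by omega) h3
  have hq : (Bivariate.swap (red2 ψ)).map (eval₂RingHom (algebraMap (ZMod 2) k) θ) = 0 := by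
    classical
    refine Polynomial.eq_zero_of_natDegree_lt_card_of_eval_eq_zero' _
      ((Vn n g ψ).image fun i => θ ^ 2 ^ (n - i)) ?_ ?_
    · intro a ha
      obtain ⟨i, hi, rfl⟩ := Finset.mem_image.1 ha
      rw [ek_swap]
      have hin := (mem_Vn.1 hi).1
      have h3 : ek θ (θ ^ 2 ^ i) (red2 ψ) = 0 := by
        rw [ek_red2, ← it_two, ← aeval_Yp, ← aeval_ev]
        obtain ⟨w, hw⟩ := (mem_Vn.1 hi).2
        rw [hw, map_mul, hθ, zero_mul]
      have h4 := ek_frob θ (θ ^ 2 ^ i) (n - i) (red2 ψ)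
      rw [h3, ← pow_mul, ← pow_add, Nat.add_sub_cancel' hin.le, h1,
        zero_pow (pow_ne_zero _ two_ne_zero)] at h4
      exact h4.symm
    · rw [Finset.card_image_of_injOn]
      · exact lt_of_le_of_lt natDegree_map_le hcard
      · intro i hi j hj he
        rcases lt_trichotomy i j with h | h | h
        · exact absurd he (hinj i (Finset.mem_coe.1 hi) j (Finset.mem_coe.1 hj) h)
        · exact h
        · exact absurd he.symm (hinj j (Finset.mem_coe.1 hj) i (Finset.mem_coe.1 hi) h)
  have h5 := congrArg (fun q => q.coeff m) hq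
  simp only [coeff_map, coeff_zero] at h5
  exact h5

/-- a separable polynomial all of whose roots are roots of `c` divides `c` -/
theorem dvd_una {k : Type} [Field k] [Algebra (ZMod 2) k] [IsAlgClosed k] {g : ℤ[X]}
    {c : (ZMod 2)[X]} (hc0 : c ≠ 0) (hsep : (g.map (Int.castRingHom (ZMod 2))).Separable)
    (key : ∀ θ : k, aeval θ g = 0 → aeval θ c = 0) : g.map (Int.castRingHom (ZMod 2)) ∣ c := by
  rw [← Polynomial.map_dvd_map' (algebraMap (ZMod 2) k)]
  refine (IsAlgClosed.splits _).dvd_of_roots_le_roots ?_ ?_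
  · exact (Polynomial.map_ne_zero hsep.ne_zero)
  · rw [Multiset.le_iff_subset (nodup_roots hsep.map)]
    intro θ hθ
    rw [mem_roots (Polynomial.map_ne_zero hsep.ne_zero)] at hθ
    rw [mem_roots (Polynomial.map_ne_zero hc0)]
    have h6 : aeval θ g = 0 := by
      have h7 : eval θ ((g.map (Int.castRingHom (ZMod 2))).map (algebraMap (ZMod 2) k)) = 0 := hθ
      rw [Polynomial.map_map, eval_map] at h7
      rw [aeval_def, ← h7]
      congr 1
      exact RingHom.ext_int _ _
    rw [IsRoot.def, eval_map]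
    exact key θ h6

/-- Row UNA. -/
theorem una : UnaStmt := by
  intro moa mob n g hc ψ hψ hcard
  obtain ⟨hsep, -⟩ := mob moa n g hc
  -- a nonzero coefficient
  have hsw : Bivariate.swap (red2 ψ) ≠ 0 := by
    intro h
    exact hψ ((map_eq_zero_iff _ (Bivariate.swap (R := ZMod 2)).injective).1 h)
  have hc0 : (Bivariate.swap (red2 ψ)).coeff (Bivariate.swap (red2 ψ)).natDegree ≠ 0 :=
    leadingCoeff_ne_zero.2 hsw
  have hdvd := dvd_una (k := AlgebraicClosure (ZMod 2)) hc0 hsep (by
    intro θ hθ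
    obtain ⟨h1, h2⟩ := moa n g hc (AlgebraicClosure (ZMod 2)) θ hθ
    exact key_una hcard θ hθ h1 h2 _)
  calc g.natDegree = (g.map (Int.castRingHom (ZMod 2))).natDegree := (hc.monic.natDegree_map _).symm
    _ ≤ _ := natDegree_le_of_dvd hdvd hc0
    _ ≤ (red2 ψ).natDegree := by
        rw [natDegree_le_iff_coeff_eq_zero]
        intro N hN
        rw [coeff_swap, coeff_eq_zero_of_natDegree_lt hN, coeff_zero]
    _ ≤ ψ.natDegree := natDegree_map_le

end Pool.Agent.EDG.H42
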